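import Mathlib

set_option autoImplicit false
set_option linter.all false

/-! A quadratic equation modulo a monic polynomial over a complete discrete valuation ring. -/

namespace Pool.Agent.L0h63.SP

open Polynomial

section abs

variable {O : Type*} [CommRing O] [IsDomain O]

lemma dvd_modByMonic (c : O) (P f : O[X]) (h : C c ∣ P) : C c ∣ P %ₘ f := by
  obtain ⟨Q, rfl⟩ := h
  rw [← smul_eq_C_mul, smul_modByMonic, smul_eq_C_mul]
  exact dvd_mul_right _ _

/-- Newton iteration. -/
theorem newton (ϖ : O) (hlim : ∀ a : ℕ → O, (∀ k, ϖ ^ k ∣ a (k + 1) - a k) →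
    ∃ l, ∀ k, ϖ ^ k ∣ l - a k) (hsep : ∀ x : O, (∀ k, ϖ ^ k ∣ x) → x = 0) (h2 : ϖ ∣ 2)
    (f b c : O[X]) (hf : f.Monic) :
    ∃ z : O[X], f ∣ z ^ 2 + (1 + 2 * b) * z - 2 * ((1 + 2 * b) * c) := by
  obtain ⟨y, hy0, hys⟩ : ∃ y : ℕ → O[X], y 0 = 0 ∧ ∀ k, y (k + 1) =
      (2 * ((1 + 2 * b) * c) - y k ^ 2 - 2 * b * y k) %ₘ f :=
    ⟨fun k => Nat.rec 0 (fun _ y => (2 * ((1 + 2 * b) * c) - y ^ 2 - 2 * b * y) %ₘ f) k, rfl,
      fun _ => rfl⟩
  have hC2 : C ϖ ∣ (2 : O[X]) := by
    obtain ⟨u, hu⟩ := h2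
    refine ⟨C u, ?_⟩
    rw [← C_mul, ← hu]; rfl
  have hA : ∀ k, C ϖ ∣ y k := by
    intro k
    induction k with
    | zero => rw [hy0]; exact dvd_zero _
    | succ k ih =>
      rw [hys]
      apply dvd_modByMonic
      refine dvd_sub (dvd_sub (hC2.mul_right _) ?_) ?_
      · exact (dvd_pow_self _ (by norm_num)).trans (pow_dvd_pow_of_dvd ih 2)
      · exact ih.mul_left _
  have hred : ∀ k, y k %ₘ f = y k := by
    intro k
    rw [modByMonic_eq_self_iff hf]
    rcases k with _ | k
    · rw [hy0, degree_zero]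
      exact bot_lt_iff_ne_bot.mpr (fun h => hf.ne_zero (degree_eq_bot.mp h))
    · rw [hys]; exact degree_modByMonic_lt _ hf
  have hB : ∀ k, C (ϖ ^ k) ∣ y (k + 1) - y k := by
    intro k
    induction k with
    | zero => rw [pow_zero, C_1]; exact one_dvd _
    | succ k ih =>
      have e : y (k + 1 + 1) - y (k + 1) =
          (-((y (k + 1) - y k) * (y (k + 1) + y k + 2 * b))) %ₘ f := by
        rw [hys (k + 1), hys k, ← sub_modByMonic, ← hys k]
        congr 1
        ring
      rw [e]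
      apply dvd_modByMonic
      rw [dvd_neg, pow_succ, C_mul]
      apply mul_dvd_mul ih
      exact dvd_add (dvd_add (hA _) (hA _)) (hC2.mul_right _)
  -- the limits of the coefficients
  have hl : ∀ i, ∃ l, ∀ k, ϖ ^ k ∣ l - (y k).coeff i := by
    intro i
    apply hlim
    intro k
    have := (C_dvd_iff_dvd_coeff _ _).mp (hB k) i
    rwa [coeff_sub] at this
  choose l hl using hl
  obtain ⟨z, hz⟩ : ∃ z : O[X], z = ∑ i ∈ Finset.range f.natDegree, C (l i) * X ^ i := ⟨_, rfl⟩
  have hzc : ∀ i, z.coeff i = if i < f.natDegree then l i else 0 := by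
    intro i
    rw [hz, finset_sum_coeff]
    simp only [coeff_C_mul, coeff_X_pow, mul_ite, mul_one, mul_zero]
    by_cases hi : i < f.natDegree
    · rw [if_pos hi, Finset.sum_eq_single i]
      · rw [if_pos rfl]
      · intro j _ hj
        rw [if_neg (Ne.symm hj)]
      · intro h
        exact absurd (Finset.mem_range.mpr hi) h
    · rw [if_neg hi]
      apply Finset.sum_eq_zero
      intro j hj
      rw [Finset.mem_range] at hj
      rw [if_neg (by omega)]
  have hzy : ∀ k, C (ϖ ^ k) ∣ z - y k := by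
    intro k
    rw [C_dvd_iff_dvd_coeff]
    intro i
    rw [coeff_sub, hzc]
    by_cases hi : i < f.natDegree
    · rw [if_pos hi]; exact hl i k
    · rw [if_neg hi]
      have h0 : (y k).coeff i = 0 := by
        apply coeff_eq_zero_of_degree_lt
        have h1 : (y k).degree < f.degree := (modByMonic_eq_self_iff hf).mp (hred k)
        refine h1.trans_le (degree_le_natDegree.trans ?_)
        exact_mod_cast not_lt.mp hi
      rw [h0, sub_zero]; exact dvd_zero _
  refine ⟨z, ?_⟩
  rw [← modByMonic_eq_zero_iff_dvd hf]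
  have hk : ∀ k, C (ϖ ^ k) ∣ (z ^ 2 + (1 + 2 * b) * z - 2 * ((1 + 2 * b) * c)) %ₘ f := by
    intro k
    have e : (z ^ 2 + (1 + 2 * b) * z - 2 * ((1 + 2 * b) * c)) %ₘ f =
        (y k - y (k + 1)) + ((z - y k) * (z + y k + (1 + 2 * b))) %ₘ f := by
      have e1 : y k - y (k + 1) =
          (y k - (2 * ((1 + 2 * b) * c) - y k ^ 2 - 2 * b * y k)) %ₘ f := by
        rw [sub_modByMonic, hred k, hys k]
      rw [e1, ← add_modByMonic]
      congr 1
      ring
    rw [e]
    refine dvd_add ?_ (dvd_modByMonic _ _ _ ((hzy k).mul_right _))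
    rw [← dvd_neg, neg_sub]
    exact hB k
  ext i
  rw [coeff_zero]
  apply hsep
  intro k
  exact (C_dvd_iff_dvd_coeff _ _).mp (hk k) i

end abs

section lim

open WithZero Filter Topology

variable {L : Type*} [Field L] [Valued L (WithZero (Multiplicative ℤ))]

theorem nonarch : NonarchimedeanAddGroup L where
  is_nonarchimedean U hU := by
    obtain ⟨γ, hγ⟩ := Valued.mem_nhds_zero.1 hU
    refine ⟨⟨Valuation.ltAddSubgroup (Valued.v (R := L)).restrict γ, ?_⟩, ?_⟩
    · exact Valued.isOpen_ball L γ.1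
    · intro x hx
      exact hγ hx

/-- Completeness. -/
theorem lim_w [CompleteSpace L] [T0Space L] {ϖ : L} (hϖ : Valued.v ϖ = exp (-1 : ℤ))
    (s : ℕ → L) (hs : ∀ n, Valued.v (s (n + 1) - s n) ≤ exp (-(n : ℤ))) :
    ∃ z, ∀ n, Valued.v (z - s n) ≤ exp (-(n : ℤ)) := by
  haveI := nonarch (L := L)
  have hϖ1 : Valued.v ϖ < 1 := by
    rw [hϖ, ← exp_zero, exp_lt_exp]; norm_num
  have hϖ0 : ϖ ≠ 0 := by
    rintro rfl
    rw [map_zero] at hϖ
    exact exp_ne_zero hϖ.symm
  have hϖn : ∀ n : ℕ, Valued.v (ϖ ^ n) = exp (-(n : ℤ)) := by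
    intro n
    rw [map_pow, hϖ, ← exp_nsmul]
    congr 1
    simp
  have hpow : Tendsto (fun n : ℕ => ϖ ^ n) atTop (𝓝 0) := Valued.tendsto_zero_pow_of_v_lt_one hϖ1
  have hlim : Tendsto (fun n => s (n + 1) - s n) atTop (𝓝 0) := by
    rw [(Valued.hasBasis_nhds_zero L (WithZero (Multiplicative ℤ))).tendsto_right_iff] at hpow ⊢
    intro γ _
    filter_upwards [hpow γ trivial] with n hn
    have hn' : (Valued.v (R := L)).restrict (ϖ ^ n) < γ := hn
    show (Valued.v (R := L)).restrict (s (n + 1) - s n) < γ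
    refine lt_of_le_of_lt ?_ hn'
    rw [Valuation.restrict_le_iff, hϖn]
    exact hs n
  have hcau : CauchySeq s := NonarchimedeanAddGroup.cauchySeq_of_tendsto_sub_nhds_zero hlim
  obtain ⟨z, hz⟩ := cauchySeq_tendsto_of_complete hcau
  have hmono : ∀ n m, Valued.v (s (n + m) - s n) ≤ exp (-(n : ℤ)) := by
    intro n m
    induction m with
    | zero => rw [add_zero, sub_self, map_zero]; exact zero_le'
    | succ m ih =>
      have e : s (n + (m + 1)) - s n = (s (n + m + 1) - s (n + m)) + (s (n + m) - s n) := by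
        rw [← add_assoc]; ring
      rw [e]
      refine (Valuation.map_add _ _ _).trans (max_le ((hs _).trans ?_) ih)
      rw [exp_le_exp]
      push_cast
      omega
  refine ⟨z, fun n => ?_⟩
  have hb := (hz.sub_const z)
  rw [sub_self, (Valued.hasBasis_nhds_zero L (WithZero (Multiplicative ℤ))).tendsto_right_iff] at hb
  have hg' : (Valued.v (R := L)).restrict (ϖ ^ n) ≠ 0 := by
    simpa using fun h : ϖ = 0 => absurd h hϖ0
  have h1 := hb (Units.mk0 _ hg') trivial
  rw [eventually_atTop] at h1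
  obtain ⟨m0, hm0⟩ := h1
  have h2 : (Valued.v (R := L)).restrict (s (n + m0) - z) <
      (Valued.v (R := L)).restrict (ϖ ^ n) := hm0 (n + m0) (by omega)
  rw [Valuation.restrict_lt_iff, hϖn] at h2
  have e : z - s n = -(s (n + m0) - z) + (s (n + m0) - s n) := by ring
  rw [e]
  refine (Valuation.map_add _ _ _).trans (max_le ?_ (hmono n m0))
  rw [Valuation.map_neg]
  exact h2.le

end lim

section comp

open WithZero IsDedekindDomain

variable {R F : Type} [CommRing R] [IsDedekindDomain R] [Field F] [Algebra R F]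
  [IsFractionRing R F] (v : HeightOneSpectrum R)

/-- The valuation ring of the completion is complete. -/
theorem comp_O : ∃ ϖ : v.adicCompletionIntegers F,
    (∀ a : ℕ → v.adicCompletionIntegers F, (∀ k, ϖ ^ k ∣ a (k + 1) - a k) →
      ∃ l, ∀ k, ϖ ^ k ∣ l - a k) ∧ (∀ x : v.adicCompletionIntegers F, (∀ k, ϖ ^ k ∣ x) → x = 0) ∧
    ∀ r : R, r ∈ v.asIdeal → ϖ ∣ algebraMap R (v.adicCompletionIntegers F) r := by
  obtain ⟨π, hπ⟩ := v.intValuation_exists_uniformizer
  have hO := HeightOneSpectrum.adicCompletionIntegers.integers (K := F) (v := v)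
  obtain ⟨ϖ, hϖ⟩ : ∃ ϖ : v.adicCompletionIntegers F,
      ϖ = algebraMap R (v.adicCompletionIntegers F) π := ⟨_, rfl⟩
  have hval : ∀ r : R, Valued.v ((algebraMap R (v.adicCompletionIntegers F) r :
      v.adicCompletionIntegers F) : v.adicCompletion F) = v.intValuation r := by
    intro r
    rw [← v.valuation_of_algebraMap (K := F)]
    exact HeightOneSpectrum.valuedAdicCompletion_eq_valuation' v (algebraMap R F r)
  have hϖv : Valued.v (ϖ : v.adicCompletion F) = exp (-1 : ℤ) := by
    rw [hϖ, hval, hπ]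
  have hϖn : ∀ n : ℕ, Valued.v ((ϖ ^ n : v.adicCompletionIntegers F) : v.adicCompletion F) =
      exp (-(n : ℤ)) := by
    intro n
    push_cast
    rw [map_pow, hϖv, ← exp_nsmul]
    congr 1
    simp
  have hdvd : ∀ (k : ℕ) (x : v.adicCompletionIntegers F), ϖ ^ k ∣ x ↔
      Valued.v (x : v.adicCompletion F) ≤ exp (-(k : ℤ)) := by
    intro k x
    rw [hO.dvd_iff_le, ← hϖn k]
    exact Iff.rfl
  refine ⟨ϖ, ?_, ?_, ?_⟩
  · intro a ha
    obtain ⟨z, hz⟩ := lim_w (L := v.adicCompletion F) (ϖ := (ϖ : v.adicCompletion F)) hϖv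
      (fun k => (a k : v.adicCompletion F)) (fun n => by
        have := (hdvd n _).mp (ha n)
        push_cast at this
        exact this)
    have hz1 : z ∈ v.adicCompletionIntegers F := by
      have h0 := hz 0
      rw [Nat.cast_zero, neg_zero, exp_zero] at h0
      have e : z = (z - (a 0 : v.adicCompletion F)) + (a 0 : v.adicCompletion F) := by ring
      rw [e]
      exact add_mem h0 (a 0).2
    refine ⟨⟨z, hz1⟩, fun k => ?_⟩
    rw [hdvd]
    push_cast
    exact hz k
  · intro x hx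
    by_contra h0
    have h1 : (x : v.adicCompletion F) ≠ 0 := fun h => h0 (Subtype.ext h)
    have h2 : Valued.v (x : v.adicCompletion F) ≠ 0 := by simpa using h1
    obtain ⟨m, hm⟩ : ∃ m : ℤ, Valued.v (x : v.adicCompletion F) = exp m :=
      ⟨log (Valued.v (x : v.adicCompletion F)), (exp_log h2).symm⟩
    have h3 := (hdvd (m.natAbs + 1) x).mp (hx _)
    rw [hm, exp_le_exp] at h3
    push_cast at h3
    have := neg_abs_le m
    omega
  · intro r hr
    have h1 : ϖ ^ 1 ∣ algebraMap R (v.adicCompletionIntegers F) r := by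
      rw [hdvd, hval, v.intValuation_le_pow_iff_mem, pow_one]
      exact hr
    rwa [pow_one] at h1

end comp

end Pool.Agent.L0h63.SP
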