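import Pool.Agent.L0h94.SP.StmA
import Pool.Agent.N456.PF.Pb

/-!
# SP/PBP: pairs of symmetric matrices over the integers of a number field, in boxes, with prescribed
localizations

Adapted from the file `Pool/Agent/N456/PF/Pb.lean` (helper456).
-/

set_option autoImplicit false
set_option linter.all false

open Polynomial Matrix NumberField
open scoped Classical

namespace Pool.Agent.L0h63.SP

open Pool.Agent.N352.PJ (Mt Typ dd)
open Pool.Agent.N783.PQ (chp form Dist Gap Mid Deep eA eB eU uu)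
open Pool.Agent.N783.PF
open Pool.Agent.N951.PQ (P2 mem_P2 card_P2 sum_P2 sum_w card_erase)
open Pool.Agent.N456.PF (card_fib absNorm_sp sp_ne_bot Cst pts exists_p0 mat_ext PP mem_PP ne_bot
  prod_PP mem_sp crt finq not_mem)
open Pool.Agent.L0h94.SP

section fld

variable {F : Type} [Field F] [NumberField F]

/-! ### The trivial bound -/

section triv

variable {g N c : ℕ} {w : Fin (2 * g + 1) → ℤ} {S U Z : Finset ℕ} {𝔮 : ℕ → Ideal (𝓞 F)}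
  {P : ℕ → (𝓞 F)[X]} {C₀ : ℕ}

lemma det_ne {A B : Mt g (𝓞 F)} (h : XP g N c w S U Z 𝔮 P A B) : A.det ≠ 0 := by
  obtain ⟨x, hx, hd, -⟩ := h.box.det
  rw [hd]
  exact mul_ne_zero (pow_ne_zero _ (by norm_num)) (pow_ne_zero _ hx)

lemma adj_symm {A : Mt g (𝓞 F)} (hs : A.IsSymm) : (A.adjugate).IsSymm := by
  show (A.adjugate)ᵀ = A.adjugate
  rw [adjugate_transpose, hs]

/-- for fixed `A` -/
lemma fiber_inj {A : Mt g (𝓞 F)} {p0 : Fin (2 * g + 1) × Fin (2 * g + 1)} (hA : A.IsSymm)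
    (hp0 : p0 ∈ P2 g) (h0 : A.adjugate p0.1 p0.2 ≠ 0) {B B' : Mt g (𝓞 F)}
    (hB : XP g N c w S U Z 𝔮 P A B) (hB' : XP g N c w S U Z 𝔮 P A B')
    (heq : ∀ p ∈ (P2 g).erase p0, B p.1 p.2 = B' p.1 p.2) : B = B' :=
  mat_ext (adj_symm hA) hB.box.sB hB'.box.sB hB.box.tr hB'.box.tr hp0 h0 heq

lemma fiber0 (hC : Cst F C₀) (hw : Typ g w) (A : Mt g (𝓞 F)) :
    2 ^ (Module.finrank ℚ F * (2 * N)) * {B : Mt g (𝓞 F) | XP g N c w S U Z 𝔮 P A B}.ncard ≤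
      C₀ ^ dd g * 2 ^ (Module.finrank ℚ F * eB g N w) := by
  set d := Module.finrank ℚ F with hd
  rcases Set.eq_empty_or_nonempty {B : Mt g (𝓞 F) | XP g N c w S U Z 𝔮 P A B} with he | ⟨B0, hB0⟩
  · rw [he, Set.ncard_empty, mul_zero]
    exact Nat.zero_le _
  have hB0' : XP g N c w S U Z 𝔮 P A B0 := hB0
  obtain ⟨p0, hp0, h0, hp0w⟩ := exists_p0 hw hB0'.box.sA (det_ne hB0')
  let T := ∀ p : {p // p ∈ (P2 g).erase p0},
    {a : 𝓞 F // Bd (a : F) ((2 : ℝ) ^ (2 * (N : ℤ) + w p.1.1 + w p.1.2))}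
  haveI : ∀ p : {p // p ∈ (P2 g).erase p0},
    Finite {a : 𝓞 F // Bd (a : F) ((2 : ℝ) ^ (2 * (N : ℤ) + w p.1.1 + w p.1.2))} :=
    fun p => hC.fin _
  let Φ : {B : Mt g (𝓞 F) | XP g N c w S U Z 𝔮 P A B} → T := fun B p =>
    ⟨B.1 p.1.1 p.1.2, B.2.box.bB _ _⟩
  have hΦ : Function.Injective Φ := by
    rintro ⟨B, hB⟩ ⟨B', hB'⟩ heq
    apply Subtype.ext
    refine fiber_inj hB0'.box.sA hp0 h0 hB hB' fun p hp => ?_
    exact congrArg (fun t : T => ((t ⟨p, hp⟩).1 : 𝓞 F)) heq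
  have h1 := Nat.card_le_card_of_injective Φ hΦ
  rw [Nat.card_coe_set_eq] at h1
  have h2 : Nat.card T ≤ ∏ p ∈ (P2 g).erase p0,
      (C₀ * 2 ^ (d * (2 * (N : ℤ) + w p.1 + w p.2).toNat)) := by
    rw [Nat.card_pi, Finset.prod_coe_sort ((P2 g).erase p0)
      (fun p => Nat.card {a : 𝓞 F // Bd (a : F) ((2 : ℝ) ^ (2 * (N : ℤ) + w p.1 + w p.2))})]
    exact Finset.prod_le_prod' fun p _ => hC.card _
  rw [Finset.prod_mul_distrib, Finset.prod_const, card_erase hp0, Finset.prod_pow_eq_pow_sum,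
    ← Finset.mul_sum] at h2
  have h3 := Finset.sum_erase_add (P2 g)
    (fun p : Fin (2 * g + 1) × Fin (2 * g + 1) => (2 * (N : ℤ) + w p.1 + w p.2).toNat) hp0
  have h4 : 2 * N ≤ (2 * (N : ℤ) + w p0.1 + w p0.2).toNat := by omega
  have h5 : 2 * N + ∑ p ∈ (P2 g).erase p0, (2 * (N : ℤ) + w p.1 + w p.2).toNat ≤ eB g N w := by
    have : eB g N w = ∑ p ∈ P2 g, (2 * (N : ℤ) + w p.1 + w p.2).toNat := rfl
    rw [this, ← h3]
    omega
  calc 2 ^ (d * (2 * N)) * {B : Mt g (𝓞 F) | XP g N c w S U Z 𝔮 P A B}.ncard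
      ≤ 2 ^ (d * (2 * N)) * (C₀ ^ dd g *
        2 ^ (d * ∑ p ∈ (P2 g).erase p0, (2 * (N : ℤ) + w p.1 + w p.2).toNat)) :=
        Nat.mul_le_mul_left _ (h1.trans h2)
    _ = C₀ ^ dd g * 2 ^ (d * (2 * N +
          ∑ p ∈ (P2 g).erase p0, (2 * (N : ℤ) + w p.1 + w p.2).toNat)) := by
        rw [mul_add d, pow_add]; ring
    _ ≤ _ := Nat.mul_le_mul_left _ (Nat.pow_le_pow_right (by norm_num)
        (Nat.mul_le_mul_left _ h5))

/-- the pairs form a finite set -/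
lemma fin_pairs (hC : Cst F C₀) :
    {p : Mt g (𝓞 F) × Mt g (𝓞 F) | XP g N c w S U Z 𝔮 P p.1 p.2}.Finite := by
  let T := (∀ p : Fin (2 * g + 1) × Fin (2 * g + 1),
      {a : 𝓞 F // Bd (a : F) ((2 : ℝ) ^ ((c : ℤ) + w p.1 + w p.2))}) ×
    (∀ p : Fin (2 * g + 1) × Fin (2 * g + 1),
      {a : 𝓞 F // Bd (a : F) ((2 : ℝ) ^ (2 * (N : ℤ) + w p.1 + w p.2))})
  haveI : ∀ p : Fin (2 * g + 1) × Fin (2 * g + 1),
    Finite {a : 𝓞 F // Bd (a : F) ((2 : ℝ) ^ ((c : ℤ) + w p.1 + w p.2))} := fun p => hC.fin _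
  haveI : ∀ p : Fin (2 * g + 1) × Fin (2 * g + 1),
    Finite {a : 𝓞 F // Bd (a : F) ((2 : ℝ) ^ (2 * (N : ℤ) + w p.1 + w p.2))} := fun p => hC.fin _
  let Φ : {p : Mt g (𝓞 F) × Mt g (𝓞 F) | XP g N c w S U Z 𝔮 P p.1 p.2} → T := fun z =>
    (fun p => ⟨z.1.1 p.1 p.2, z.2.box.bA _ _⟩,
      fun p => ⟨z.1.2 p.1 p.2, z.2.box.bB _ _⟩)
  have hΦ : Function.Injective Φ := by
    rintro ⟨⟨A, B⟩, hAB⟩ ⟨⟨A', B'⟩, hAB'⟩ heq
    apply Subtype.ext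
    apply Prod.ext
    · apply Matrix.ext
      intro i j
      exact congrArg (fun t : T => ((t.1 (i, j)).1 : 𝓞 F)) heq
    · apply Matrix.ext
      intro i j
      exact congrArg (fun t : T => ((t.2 (i, j)).1 : 𝓞 F)) heq
  have : Finite {p : Mt g (𝓞 F) × Mt g (𝓞 F) | XP g N c w S U Z 𝔮 P p.1 p.2} :=
    Finite.of_injective Φ hΦ
  exact Set.toFinite _

/-- the number of the matrices `A` -/
lemma card_A (hC : Cst F C₀) (s : Finset (Mt g (𝓞 F)))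
    (hs : ∀ A ∈ s, ∃ B, XP g N c w S U Z 𝔮 P A B) :
    s.card ≤ C₀ ^ (dd g + 1) * 2 ^ (Module.finrank ℚ F * c * (dd g + 1)) *
      2 ^ (Module.finrank ℚ F * eA g w) := by
  set d := Module.finrank ℚ F with hd
  let T := ∀ p : {p // p ∈ P2 g},
    {a : 𝓞 F // Bd (a : F) ((2 : ℝ) ^ ((c : ℤ) + w p.1.1 + w p.1.2))}
  haveI : ∀ p : {p // p ∈ P2 g},
    Finite {a : 𝓞 F // Bd (a : F) ((2 : ℝ) ^ ((c : ℤ) + w p.1.1 + w p.1.2))} :=
    fun p => hC.fin _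
  let Φ : {A // A ∈ s} → T := fun A p =>
    ⟨A.1 p.1.1 p.1.2, by
      obtain ⟨B, hB⟩ := hs A.1 A.2
      exact hB.box.bA _ _⟩
  have hΦ : Function.Injective Φ := by
    rintro ⟨A, hA⟩ ⟨A', hA'⟩ heq
    apply Subtype.ext
    obtain ⟨B, hB⟩ := hs A hA
    obtain ⟨B', hB'⟩ := hs A' hA'
    have key : ∀ p ∈ P2 g, A p.1 p.2 = A' p.1 p.2 := fun p hp =>
      congrArg (fun t : T => ((t ⟨p, hp⟩).1 : 𝓞 F)) heq
    change A = A'
    apply Matrix.ext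
    intro i j
    rcases le_total i j with hle | hle
    · exact key (i, j) (mem_P2.2 hle)
    · rw [← hB.box.sA.apply, ← hB'.box.sA.apply]
      exact key (j, i) (mem_P2.2 hle)
  have h1 := Nat.card_le_card_of_injective Φ hΦ
  rw [Nat.card_eq_fintype_card, Fintype.card_coe] at h1
  refine h1.trans ?_
  have h2 : Nat.card T ≤ ∏ p ∈ P2 g, (C₀ * 2 ^ (d * c) * 2 ^ (d * (w p.1 + w p.2).toNat)) := by
    rw [Nat.card_pi, Finset.prod_coe_sort (P2 g)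
      (fun p => Nat.card {a : 𝓞 F // Bd (a : F) ((2 : ℝ) ^ ((c : ℤ) + w p.1 + w p.2))})]
    refine Finset.prod_le_prod' fun p _ => (hC.card _).trans ?_
    rw [mul_assoc, ← pow_add, ← mul_add]
    exact Nat.mul_le_mul_left _ (Nat.pow_le_pow_right (by norm_num)
      (Nat.mul_le_mul_left _ (by omega)))
  rw [Finset.prod_mul_distrib, Finset.prod_const, card_P2, Finset.prod_pow_eq_pow_sum,
    ← Finset.mul_sum, mul_pow, ← pow_mul] at h2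
  exact h2

/-- from the fibres to the pairs -/
lemma assemble (hC : Cst F C₀) {K M : ℕ}
    (hf : ∀ A : Mt g (𝓞 F), K * {B : Mt g (𝓞 F) | XP g N c w S U Z 𝔮 P A B}.ncard ≤ M) :
    K * {p : Mt g (𝓞 F) × Mt g (𝓞 F) | XP g N c w S U Z 𝔮 P p.1 p.2}.ncard ≤
      M * (C₀ ^ (dd g + 1) * 2 ^ (Module.finrank ℚ F * c * (dd g + 1)) *
        2 ^ (Module.finrank ℚ F * eA g w)) := by
  have hfin := fin_pairs (g := g) (N := N) (c := c) (w := w) (S := S) (U := U) (Z := Z) (𝔮 := 𝔮) (P := P) hC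
  set s := hfin.toFinset with hs
  rw [Set.ncard_eq_toFinset_card _ hfin, ← hs, Finset.card_eq_sum_card_image Prod.fst s,
    Finset.mul_sum]
  have h1 : ∀ A ∈ s.image Prod.fst, K * (s.filter (fun p => p.1 = A)).card ≤ M := by
    intro A hA
    refine le_trans (Nat.mul_le_mul_left _ ?_) (hf A)
    have hfinA : {B : Mt g (𝓞 F) | XP g N c w S U Z 𝔮 P A B}.Finite := by
      apply Set.Finite.subset (hfin.image Prod.snd)
      intro B hB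
      exact ⟨(A, B), hB, rfl⟩
    rw [Set.ncard_eq_toFinset_card _ hfinA]
    apply Finset.card_le_card_of_injOn Prod.snd
    · intro p hp
      rw [Finset.mem_coe, Finset.mem_filter, hs, Set.Finite.mem_toFinset] at hp
      rw [Finset.mem_coe, Set.Finite.mem_toFinset]
      have := hp.1
      rw [← hp.2]
      exact hp.1
    · intro p hp p' hp' heq
      rw [Finset.mem_coe, Finset.mem_filter] at hp hp'
      exact Prod.ext (hp.2.trans hp'.2.symm) heq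
  refine (Finset.sum_le_sum h1).trans ?_
  rw [Finset.sum_const, smul_eq_mul, mul_comm]
  apply Nat.mul_le_mul_left
  apply card_A (N := N) (c := c) (S := S) (U := U) (Z := Z) (𝔮 := 𝔮) (P := P) hC
  intro A hA
  rw [Finset.mem_image] at hA
  obtain ⟨p, hp, rfl⟩ := hA
  rw [hs, Set.Finite.mem_toFinset] at hp
  exact ⟨p.2, hp⟩

end triv

end fld

theorem t_PB0P (h : S_PTS) : S_PB0P := by
  intro F _ _ g c hg
  obtain ⟨C₀, hC⟩ := pts h F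
  refine ⟨C₀ ^ dd g * (C₀ ^ (dd g + 1) * 2 ^ (Module.finrank ℚ F * c * (dd g + 1))),
    fun S U Z 𝔮 P N w hw => ⟨fin_pairs hC, ?_⟩⟩
  refine (assemble hC (fun A => fiber0 hC hw A)).trans (le_of_eq ?_)
  rw [mul_add (Module.finrank ℚ F) (eA g w), pow_add 2 (Module.finrank ℚ F * eA g w)]
  ring
section prime

variable {F : Type} [Field F] [NumberField F]

variable {g N c W : ℕ} {w : Fin (2 * g + 1) → ℤ} {S U Z : Finset ℕ} {𝔮 : ℕ → Ideal (𝓞 F)}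
  {h P : ℕ → (𝓞 F)[X]} {C₀ : ℕ}

/-- The good matrices `B` modulo a prime over `q`. -/
abbrev GP (g : ℕ) (U Z : Finset ℕ) (𝔮 : ℕ → Ideal (𝓞 F)) (P : ℕ → (𝓞 F)[X]) (A : Mt g (𝓞 F)) (q : ℕ)
    (𝔭 : Ideal (𝓞 F)) : Type :=
  {B : Mt g (𝓞 F ⧸ 𝔭) // B.IsSymm ∧ chp (rm 𝔭 A) B = rd 𝔭 (P q) ∧
    (𝔭 = 𝔮 q → q ∈ U → (Dist (rm 𝔭 A) B ↔ q ∈ Z))}

lemma card_GP (h2 : S_CQA) (h2n : S_CQN) (h3 : S_CQB) (hg : 1 ≤ g) (hW : 2 ^ c + 1 ≤ W)
    (hS : GoodS g W S 𝔮 h P) {A : Mt g (𝓞 F)} (hA : A.IsSymm)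
    (hd : ∃ x : 𝓞 F, x ≠ 0 ∧ A.det = (-1) ^ g * x ^ 2 ∧ Ideal.absNorm (Ideal.span {x}) ≤ 2 ^ c)
    {q : ℕ} (hq : q ∈ S) {𝔭 : Ideal (𝓞 F)} (h𝔭 : 𝔭 ∈ PP F q) :
    (if 𝔭 = 𝔮 q then (if q ∈ U then 2 else 1) else 1) * Nat.card (GP g U Z 𝔮 P A q 𝔭) ≤
      Ideal.absNorm 𝔭 ^ (g * (2 * g + 1)) := by
  obtain ⟨hp, hWq, _, h8, hram, hqp, hqm, hm, hdeg, hirr, hPm, hPd, hPt, hcg, hPi⟩ := hS q hq
  rw [mem_PP hp.ne_zero] at h𝔭
  haveI : 𝔭.IsPrime := h𝔭.1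
  have hb : 𝔭 ≠ ⊥ := ne_bot hp.ne_zero h𝔭.2
  haveI : 𝔭.IsMaximal := Ideal.IsPrime.isMaximal inferInstance hb
  haveI : Finite (𝓞 F ⧸ 𝔭) := finq hb
  have hcard : Ideal.absNorm 𝔭 = Nat.card (𝓞 F ⧸ 𝔭) := by
    rw [Ideal.absNorm_apply, Submodule.cardQuot_apply]
  have h2q : (2 : 𝓞 F ⧸ 𝔭) ≠ 0 := by
    intro h0
    have h1 : Ideal.Quotient.mk 𝔭 ((2 : ℕ) : 𝓞 F) = 0 := by
      rw [map_natCast]
      exact_mod_cast h0
    rw [Ideal.Quotient.eq_zero_iff_mem] at h1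
    exact not_mem hp h𝔭.1 h𝔭.2 (by norm_num) (by
      have := hp.two_le
      omega) h1
  obtain ⟨x, hx0, hdet, hnx⟩ := hd
  have hx : Ideal.Quotient.mk 𝔭 x ≠ 0 := by
    intro h0
    rw [Ideal.Quotient.eq_zero_iff_mem] at h0
    have h1 : (Ideal.absNorm (Ideal.span {x}) : 𝓞 F) ∈ 𝔭 :=
      (Ideal.span_singleton_le_iff_mem 𝔭).2 h0 (Ideal.absNorm_mem _)
    refine not_mem hp h𝔭.1 h𝔭.2 ?_ ?_ h1
    · rw [Ne, Ideal.absNorm_eq_zero_iff, Ideal.span_singleton_eq_bot]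
      exact hx0
    · omega
  have hdet' : (rm 𝔭 A).det = (-1) ^ g * (Ideal.Quotient.mk 𝔭 x) ^ 2 := by
    have h1 : (rm 𝔭 A).det = Ideal.Quotient.mk 𝔭 A.det := (RingHom.map_det _ _).symm
    rw [h1, hdet, map_mul, map_pow, map_pow, map_neg, map_one]
  letI : Field (𝓞 F ⧸ 𝔭) := Ideal.Quotient.field 𝔭
  rw [hcard]
  by_cases hc : 𝔭 = 𝔮 q
  · rw [if_pos hc]
    have hirr' : Irreducible (rd 𝔭 (h q)) := by
      rw [hc]
      exact hirr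
    have e1 : rd 𝔭 (P q) = X * rd 𝔭 (h q) := by
      have e2 : (X : (𝓞 F ⧸ 𝔭)[X]) * rd 𝔭 (h q) = rd 𝔭 (X * h q) := by
        rw [rd, rd, Polynomial.map_mul, map_X]
      rw [e2]
      ext j
      rw [coeff_map, coeff_map, ← sub_eq_zero, ← map_sub, Ideal.Quotient.eq_zero_iff_mem, hc]
      exact hcg j
    have e3 := h2 g (𝓞 F ⧸ 𝔭) hg h2q (rd 𝔭 (h q)) (hm.map _) hirr'
      (by rw [hm.natDegree_map, hdeg]) (rm 𝔭 A) (hA.map _) ⟨_, hx, hdet'⟩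
    have e3n := h2n g (𝓞 F ⧸ 𝔭) hg h2q (rd 𝔭 (h q)) (hm.map _) hirr'
      (by rw [hm.natDegree_map, hdeg]) (rm 𝔭 A) (hA.map _) ⟨_, hx, hdet'⟩
    by_cases hqU : q ∈ U
    · rw [if_pos hqU]
      by_cases hqZ : q ∈ Z
      · refine le_trans (Nat.mul_le_mul_left 2 ?_) e3
        refine Nat.card_le_card_of_injective
          (fun B : GP g U Z 𝔮 P A q 𝔭 => (⟨B.1, B.2.1, by rw [← e1]; exact B.2.2.1,
              (B.2.2.2 hc hqU).2 hqZ⟩ :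
            {B : Mt g (𝓞 F ⧸ 𝔭) // B.IsSymm ∧ chp (rm 𝔭 A) B = X * rd 𝔭 (h q) ∧
              Dist (rm 𝔭 A) B})) ?_
        intro B B' hBB
        have h9 := Subtype.ext_iff.1 hBB
        exact Subtype.ext h9
      · refine le_trans (Nat.mul_le_mul_left 2 ?_) e3n
        refine Nat.card_le_card_of_injective
          (fun B : GP g U Z 𝔮 P A q 𝔭 => (⟨B.1, B.2.1, by rw [← e1]; exact B.2.2.1,
              fun hD => hqZ ((B.2.2.2 hc hqU).1 hD)⟩ :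
            {B : Mt g (𝓞 F ⧸ 𝔭) // B.IsSymm ∧ chp (rm 𝔭 A) B = X * rd 𝔭 (h q) ∧
              ¬ Dist (rm 𝔭 A) B})) ?_
        intro B B' hBB
        have h9 := Subtype.ext_iff.1 hBB
        exact Subtype.ext h9
    · rw [if_neg hqU, one_mul]
      have h10 : Nat.card (GP g U Z 𝔮 P A q 𝔭) ≤
          Nat.card ({B : Mt g (𝓞 F ⧸ 𝔭) // B.IsSymm ∧ chp (rm 𝔭 A) B = X * rd 𝔭 (h q) ∧
              Dist (rm 𝔭 A) B} ⊕ {B : Mt g (𝓞 F ⧸ 𝔭) // B.IsSymm ∧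
              chp (rm 𝔭 A) B = X * rd 𝔭 (h q) ∧ ¬ Dist (rm 𝔭 A) B}) := by
        refine Nat.card_le_card_of_injective
          (fun B : GP g U Z 𝔮 P A q 𝔭 => if hD : Dist (rm 𝔭 A) B.1 then
            Sum.inl ⟨B.1, B.2.1, by rw [← e1]; exact B.2.2.1, hD⟩ else
            Sum.inr ⟨B.1, B.2.1, by rw [← e1]; exact B.2.2.1, hD⟩) ?_
        intro B B' hBB
        apply Subtype.ext
        by_cases hD : Dist (rm 𝔭 A) B.1
        · by_cases hD' : Dist (rm 𝔭 A) B'.1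
          · simp only [dif_pos hD, dif_pos hD'] at hBB
            have h9 := Sum.inl.inj hBB
            exact (Subtype.ext_iff.1 h9 :)
          · simp only [dif_pos hD, dif_neg hD'] at hBB
            exact absurd hBB (by simp)
        · by_cases hD' : Dist (rm 𝔭 A) B'.1
          · simp only [dif_neg hD, dif_pos hD'] at hBB
            exact absurd hBB (by simp)
          · simp only [dif_neg hD, dif_neg hD'] at hBB
            have h9 := Sum.inr.inj hBB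
            exact (Subtype.ext_iff.1 h9 :)
      rw [Nat.card_sum] at h10
      omega
  · rw [if_neg hc, one_mul]
    have e3 := h3 g (𝓞 F ⧸ 𝔭) hg h2q (rd 𝔭 (P q)) (hPm.map _) (hPi 𝔭 h𝔭.1 h𝔭.2 hc)
      (by rw [hPm.natDegree_map, hPd]) (rm 𝔭 A) (hA.map _) ⟨_, hx, hdet'⟩
    refine le_trans ?_ e3
    refine Nat.card_le_card_of_injective
      (fun B : GP g U Z 𝔮 P A q 𝔭 => (⟨B.1, B.2.1, B.2.2.1⟩ :
        {B : Mt g (𝓞 F ⧸ 𝔭) // B.IsSymm ∧ chp (rm 𝔭 A) B = rd 𝔭 (P q)}))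
      ?_
    intro B B' hBB
    have h9 := Subtype.ext_iff.1 hBB
    exact Subtype.ext h9

lemma card_q (h2 : S_CQA) (h2n : S_CQN) (h3 : S_CQB) (hg : 1 ≤ g) (hW : 2 ^ c + 1 ≤ W)
    (hS : GoodS g W S 𝔮 h P) {A : Mt g (𝓞 F)} (hA : A.IsSymm)
    (hd : ∃ x : 𝓞 F, x ≠ 0 ∧ A.det = (-1) ^ g * x ^ 2 ∧ Ideal.absNorm (Ideal.span {x}) ≤ 2 ^ c)
    {q : ℕ} (hq : q ∈ S) :
    (if q ∈ U then 2 else 1) * ∏ 𝔭 ∈ PP F q, Nat.card (GP g U Z 𝔮 P A q 𝔭) ≤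
      (q ^ (g * (2 * g + 1))) ^ Module.finrank ℚ F := by
  obtain ⟨hp, hWq, _, h8, hram, hqp, hqm, _⟩ := hS q hq
  have h1 : ∏ 𝔭 ∈ PP F q, (if 𝔭 = 𝔮 q then (if q ∈ U then 2 else 1) else 1) =
      (if q ∈ U then 2 else 1) := by
    rw [Finset.prod_ite_eq' (PP F q) (𝔮 q) (fun _ => (if q ∈ U then 2 else 1)), if_pos]
    rw [mem_PP hp.ne_zero]
    exact ⟨hqp, hqm⟩
  calc (if q ∈ U then 2 else 1) * ∏ 𝔭 ∈ PP F q, Nat.card (GP g U Z 𝔮 P A q 𝔭)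
      = ∏ 𝔭 ∈ PP F q, ((if 𝔭 = 𝔮 q then (if q ∈ U then 2 else 1) else 1) *
          Nat.card (GP g U Z 𝔮 P A q 𝔭)) := by
        rw [Finset.prod_mul_distrib, h1]
    _ ≤ ∏ 𝔭 ∈ PP F q, Ideal.absNorm 𝔭 ^ (g * (2 * g + 1)) :=
        Finset.prod_le_prod' fun 𝔭 h𝔭 => card_GP h2 h2n h3 hg hW hS hA hd hq h𝔭
    _ = (∏ 𝔭 ∈ PP F q, Ideal.absNorm 𝔭) ^ (g * (2 * g + 1)) := Finset.prod_pow _ _ _
    _ ≤ (q ^ Module.finrank ℚ F) ^ (g * (2 * g + 1)) :=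
        Nat.pow_le_pow_left (prod_PP hp.ne_zero) _
    _ = _ := by rw [← pow_mul, ← pow_mul, mul_comm]

/-! ### The bound with congruences -/

lemma fiber (hC : Cst F C₀) (h2 : S_CQA) (h2n : S_CQN) (h3 : S_CQB) (hg : 1 ≤ g) (hW : 2 ^ c + 1 ≤ W)
    (hS : GoodS g W S 𝔮 h P) (hU : U ⊆ S) (hw : Typ g w)
    (hQ : ((∏ q ∈ S, q : ℕ) : ℝ) ≤ (2 : ℝ) ^ (2 * (N : ℤ) + 2 * w 0)) (A : Mt g (𝓞 F)) :
    2 ^ U.card * (∏ q ∈ S, q ^ (2 * g)) ^ Module.finrank ℚ F *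
        {B : Mt g (𝓞 F) | XP g N c w S U Z 𝔮 P A B}.ncard ≤
      C₀ ^ dd g * 2 ^ (Module.finrank ℚ F * (2 * N * dd g)) := by
  set d := Module.finrank ℚ F with hd
  rcases Set.eq_empty_or_nonempty {B : Mt g (𝓞 F) | XP g N c w S U Z 𝔮 P A B} with he | ⟨B0, hB0⟩
  · rw [he, Set.ncard_empty, mul_zero]
    exact Nat.zero_le _
  have hB0' : XP g N c w S U Z 𝔮 P A B0 := hB0
  have hAs := hB0'.box.sA
  have hAd := det_ne hB0'
  have hAx := hB0'.box.det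
  obtain ⟨p0, hp0, h0, hp0w⟩ := exists_p0 hw hAs hAd
  set Q : ℕ := ∏ q ∈ S, q with hQdef
  have hQ1 : 1 ≤ Q := Finset.prod_pos (fun q hq => (hS q hq).1.pos)
  have hw0 : ∀ i, w 0 ≤ w i := fun i => hw.mono (Fin.zero_le i)
  have hE : 0 ≤ 2 * (N : ℤ) + 2 * w 0 := by
    by_contra hcon
    push Not at hcon
    have h1 : (2 : ℝ) ^ (2 * (N : ℤ) + 2 * w 0) < 1 := zpow_lt_one_of_neg₀ (by norm_num) hcon
    have h2 : (1 : ℝ) ≤ (Q : ℝ) := by exact_mod_cast hQ1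
    linarith
  have hQ2 : Q ≤ 2 ^ (2 * (N : ℤ) + 2 * w 0).toNat := by
    have h1 : (2 : ℝ) ^ (2 * (N : ℤ) + 2 * w 0) =
        ((2 ^ (2 * (N : ℤ) + 2 * w 0).toNat : ℕ) : ℝ) := by
      push_cast
      rw [← zpow_natCast, Int.toNat_of_nonneg hE]
    rw [h1] at hQ
    exact_mod_cast hQ
  set ez : Fin (2 * g + 1) × Fin (2 * g + 1) → ℤ :=
    fun p => 2 * (N : ℤ) + w p.1 + w p.2 with hez
  have hez0 : ∀ p, 0 ≤ ez p := fun p => by
    have h1 := hw0 p.1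
    have h2 := hw0 p.2
    show 0 ≤ 2 * (N : ℤ) + w p.1 + w p.2
    omega
  have hQe : ∀ p, Q ≤ 2 ^ (ez p).toNat := fun p => hQ2.trans (Nat.pow_le_pow_right (by norm_num) (by
    have h1 := hw0 p.1
    have h2 := hw0 p.2
    show (2 * (N : ℤ) + 2 * w 0).toNat ≤ (2 * (N : ℤ) + w p.1 + w p.2).toNat
    omega))
  -- the classes
  let T := ∀ q : {q // q ∈ S}, ∀ 𝔭 : {𝔭 // 𝔭 ∈ PP F q.1}, GP g U Z 𝔮 P A q.1 𝔭.1
  haveI hfinGP : ∀ (q : {q // q ∈ S}) (𝔭 : {𝔭 // 𝔭 ∈ PP F q.1}), Finite (GP g U Z 𝔮 P A q.1 𝔭.1) := by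
    intro q 𝔭
    have h5 := (mem_PP (hS q.1 q.2).1.ne_zero).1 𝔭.2
    haveI : Finite (𝓞 F ⧸ 𝔭.1) := finq (ne_bot (hS q.1 q.2).1.ne_zero h5.2)
    infer_instance
  haveI : Finite T := inferInstance
  let f : {B : Mt g (𝓞 F) | XP g N c w S U Z 𝔮 P A B} → T := fun B q 𝔭 =>
    ⟨rm 𝔭.1 B.1, B.2.box.sB.map _,
      B.2.con q.1 q.2 𝔭.1 ((mem_PP (hS q.1 q.2).1.ne_zero).1 𝔭.2).1
        ((mem_PP (hS q.1 q.2).1.ne_zero).1 𝔭.2).2,
      fun hc hqU => by rw [hc]; exact B.2.dist q.1 hqU⟩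
  have hfinB : Finite {B : Mt g (𝓞 F) | XP g N c w S U Z 𝔮 P A B} := by
    have h5 : {B : Mt g (𝓞 F) | XP g N c w S U Z 𝔮 P A B}.Finite := by
      apply Set.Finite.subset ((fin_pairs (g := g) (N := N) (c := c) (w := w) (S := S) (U := U) (Z := Z) (𝔮 := 𝔮)
        (P := P) hC).image Prod.snd)
      intro B hB
      exact ⟨(A, B), hB, rfl⟩
    exact h5.to_subtype
  have hfib : ∀ b : T, (Q ^ d) ^ dd g * Nat.card {B // f B = b} ≤
      C₀ ^ dd g * 2 ^ (d * ∑ p ∈ (P2 g).erase p0, (ez p).toNat) := by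
    intro b
    rcases isEmpty_or_nonempty {B // f B = b} with hemp | ⟨⟨⟨B1, hB1⟩, hb1⟩⟩
    · rw [Nat.card_of_isEmpty, mul_zero]
      exact Nat.zero_le _
    let U := ∀ p : {p // p ∈ (P2 g).erase p0},
      {a : 𝓞 F // a - B1 p.1.1 p.1.2 ∈ sp F Q ∧ Bd (a : F) ((2 : ℝ) ^ ez p.1)}
    haveI : ∀ p : {p // p ∈ (P2 g).erase p0},
      Finite {a : 𝓞 F // a - B1 p.1.1 p.1.2 ∈ sp F Q ∧ Bd (a : F) ((2 : ℝ) ^ ez p.1)} :=
      fun p => hC.clf _ _ _ hQ1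
    have hcls : ∀ B : {B // f B = b}, ∀ i j, B.1.1 i j - B1 i j ∈ sp F Q := by
      rintro ⟨⟨B, hB⟩, hb⟩ i j
      apply crt (fun q hq => (hS q hq).1)
      intro q hq
      apply mem_sp (hS q hq).1.ne_zero (hS q hq).2.2.2.2.1
      intro 𝔭 h𝔭 hq𝔭
      have h5 : rm 𝔭 B = rm 𝔭 B1 := by
        have h6 : f ⟨B, hB⟩ = f ⟨B1, hB1⟩ := hb.trans hb1.symm
        exact congrArg (fun t : T => (t ⟨q, hq⟩ ⟨𝔭, (mem_PP (hS q hq).1.ne_zero).2 ⟨h𝔭, hq𝔭⟩⟩).1) h6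
      have h7 := congrFun (congrFun h5 i) j
      rw [← Ideal.Quotient.eq_zero_iff_mem, map_sub, sub_eq_zero]
      exact h7
    let Ψ : {B // f B = b} → U := fun B p =>
      ⟨B.1.1 p.1.1 p.1.2, hcls B _ _, B.1.2.box.bB _ _⟩
    have hΨ : Function.Injective Ψ := by
      rintro ⟨⟨B, hB⟩, hb⟩ ⟨⟨B', hB'⟩, hb'⟩ heq
      apply Subtype.ext
      apply Subtype.ext
      change B = B'
      refine fiber_inj hAs hp0 h0 hB hB' fun p hp => ?_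
      exact congrArg (fun t : U => ((t ⟨p, hp⟩).1 : 𝓞 F)) heq
    have h5 := Nat.card_le_card_of_injective Ψ hΨ
    refine (Nat.mul_le_mul_left _ h5).trans ?_
    rw [Nat.card_pi, Finset.prod_coe_sort ((P2 g).erase p0)
      (fun p => Nat.card {a : 𝓞 F // a - B1 p.1 p.2 ∈ sp F Q ∧ Bd (a : F) ((2 : ℝ) ^ ez p)}),
      Finset.mul_sum, ← Finset.prod_pow_eq_pow_sum, ← card_erase hp0, ← Finset.prod_const,
      ← Finset.prod_const, ← Finset.prod_mul_distrib, ← Finset.prod_mul_distrib]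
    exact Finset.prod_le_prod' fun p _ => hC.cls _ _ _ hQ1 (hez0 p) (hQe p)
  have h1 := card_fib f hfib
  rw [Nat.card_coe_set_eq] at h1
  have hT : Nat.card T = ∏ q ∈ S, ∏ 𝔭 ∈ PP F q, Nat.card (GP g U Z 𝔮 P A q 𝔭) := by
    rw [Nat.card_pi, ← Finset.prod_coe_sort S]
    refine Finset.prod_congr rfl fun q _ => ?_
    rw [Nat.card_pi, ← Finset.prod_coe_sort (PP F q.1)]
  have hUc : 2 ^ U.card = ∏ q ∈ S, (if q ∈ U then 2 else 1) := by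
    rw [Finset.prod_ite, Finset.prod_const, Finset.prod_const_one, mul_one,
      Finset.filter_mem_eq_inter, Finset.inter_eq_right.2 hU]
  have h4 : 2 ^ U.card * Nat.card T ≤ (Q ^ (g * (2 * g + 1))) ^ d := by
    rw [hT, hUc, ← Finset.prod_mul_distrib, hQdef, ← Finset.prod_pow,
      ← Finset.prod_pow]
    exact Finset.prod_le_prod' fun q hq => card_q h2 h2n h3 hg hW hS hAs hAx hq
  have h5 : ∑ p ∈ (P2 g).erase p0, (ez p).toNat ≤ 2 * N * dd g := by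
    have e0 := Finset.sum_erase_add (P2 g) (fun p => (ez p).toNat) hp0
    have e1 : ∀ p, (((ez p).toNat : ℕ) : ℤ) = 2 * N + (w p.1 + w p.2) := by
      intro p
      have h1 := hw0 p.1
      have h2 := hw0 p.2
      show (((2 * (N : ℤ) + w p.1 + w p.2).toNat : ℕ) : ℤ) = _
      omega
    have e2 : ((∑ p ∈ P2 g, (ez p).toNat : ℕ) : ℤ) = 2 * N * (dd g + 1) := by
      rw [Nat.cast_sum, Finset.sum_congr rfl fun p _ => e1 p, Finset.sum_add_distrib, sum_P2 hw,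
        Finset.sum_const, card_P2, nsmul_eq_mul, add_zero]
      push_cast
      ring
    have e3 := e1 p0
    have e4 : ((∑ p ∈ (P2 g).erase p0, (ez p).toNat : ℕ) : ℤ) ≤ ((2 * N * dd g : ℕ) : ℤ) := by
      have e5 : ((∑ p ∈ (P2 g).erase p0, (ez p).toNat : ℕ) : ℤ) + (((ez p0).toNat : ℕ) : ℤ) =
          2 * N * (dd g + 1) := by
        rw [← e2, ← e0]
        push_cast
        ring
      push_cast at e5 ⊢
      push_cast at e3
      linarith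
    exact_mod_cast e4
  have hQd : 0 < (Q ^ (g * (2 * g + 1))) ^ d := by positivity
  refine Nat.le_of_mul_le_mul_left ?_ hQd
  set n := {B : Mt g (𝓞 F) | XP g N c w S U Z 𝔮 P A B}.ncard with hn
  calc (Q ^ (g * (2 * g + 1))) ^ d * (2 ^ U.card * (∏ q ∈ S, q ^ (2 * g)) ^ d * n)
      = 2 ^ U.card * ((Q ^ d) ^ dd g * n) := by
        rw [Finset.prod_pow, ← hQdef]
        have e1 : (Q ^ d) ^ dd g = (Q ^ (g * (2 * g + 1))) ^ d * (Q ^ (2 * g)) ^ d := by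
          rw [← mul_pow, ← pow_add, ← pow_mul, ← pow_mul]
          congr 1
          unfold dd
          ring
        rw [e1]
        ring
    _ ≤ 2 ^ U.card * (Nat.card T * (C₀ ^ dd g * 2 ^ (d * ∑ p ∈ (P2 g).erase p0, (ez p).toNat))) :=
        Nat.mul_le_mul_left _ h1
    _ = (2 ^ U.card * Nat.card T) *
          (C₀ ^ dd g * 2 ^ (d * ∑ p ∈ (P2 g).erase p0, (ez p).toNat)) := by ring
    _ ≤ (Q ^ (g * (2 * g + 1))) ^ d *
          (C₀ ^ dd g * 2 ^ (d * ∑ p ∈ (P2 g).erase p0, (ez p).toNat)) :=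
        Nat.mul_le_mul_right _ h4
    _ ≤ _ := Nat.mul_le_mul_left _ (Nat.mul_le_mul_left _ (Nat.pow_le_pow_right (by norm_num)
        (Nat.mul_le_mul_left _ h5)))

end prime

theorem t_PBP (h2 : S_CQA) (h2n : S_CQN) (h3 : S_CQB) (h1 : S_PTS) : S_PBP := by
  intro F _ _ g c hg
  obtain ⟨C₀, hC⟩ := pts h1 F
  refine ⟨C₀ ^ dd g * (C₀ ^ (dd g + 1) * 2 ^ (Module.finrank ℚ F * c * (dd g + 1))), 2 ^ c + 1,
    fun W S 𝔮 h P hW hS U Z hU N w hw hQ => ?_⟩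
  refine (assemble hC (fun A => fiber hC h2 h2n h3 hg hW hS hU hw hQ A)).trans (le_of_eq ?_)
  rw [mul_add (Module.finrank ℚ F) (eA g w), pow_add 2 (Module.finrank ℚ F * eA g w)]
  ring

end Pool.Agent.L0h63.SP
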