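import Pool.Agent.L0h94.SP.StmB
import Pool.Agent.L0h63.SP.SQ2a

set_option autoImplicit false
set_option linter.all false

/-! Module SQ2: elements close to squares at 2 are squares in the completion. -/

namespace Pool.Agent.L0h63.SP

open Polynomial IsDedekindDomain NumberField
open Pool.Agent.N783.PF
open Pool.Agent.L0h94.SP

section alg

variable {g : ℕ} {F L : Type} [Field F] [NumberField F] [Field L] [NumberField L] [Algebra F L]
  {f : (𝓞 F)[X]} {θ : L}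

/-- The kernel of the evaluation at `θ`. -/
lemma gen_dvd (hG : IsGen g f θ) (P : F[X]) (h : aeval θ P = 0) : fF f ∣ P := by
  have hm : (fF f).Monic := hG.mon.map _
  rw [← modByMonic_eq_zero_iff_dvd hm]
  have hd : (fF f).natDegree = 2 * g + 1 := by
    rw [hG.mon.natDegree_map, hG.deg]
  obtain ⟨Q, hQ⟩ : ∃ Q : F[X], Q = P %ₘ fF f := ⟨_, rfl⟩
  have hQ0 : aeval θ Q = 0 := by
    rw [hQ, aeval_modByMonic_eq_self_of_root hG.root, h]
  have hQd : Q.natDegree < 2 * g + 1 := by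
    rw [hQ, ← hd]
    apply natDegree_modByMonic_lt _ hm
    intro h1
    rw [h1, natDegree_one] at hd
    omega
  have h1 : ∑ i : Fin (2 * g + 1), Q.coeff i • hG.basis i = 0 := by
    rw [aeval_eq_sum_range' hQd, Finset.sum_range] at hQ0
    rw [← hQ0]
    apply Finset.sum_congr rfl
    intro i _
    rw [hG.basis_apply]
  have h2 := Fintype.linearIndependent_iff.mp hG.basis.linearIndependent _ h1
  rw [← hQ]
  ext i
  rw [coeff_zero]
  by_cases hi : i < 2 * g + 1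
  · exact h2 ⟨i, hi⟩
  · exact coeff_eq_zero_of_natDegree_lt (by omega)

lemma gen_exists (hG : IsGen g f θ) (x : L) : ∃ P : F[X], aeval θ P = x := by
  obtain ⟨c, hc⟩ := hG.gen x
  refine ⟨∑ i, C (c i) * X ^ (i : ℕ), ?_⟩
  rw [hc, map_sum]
  apply Finset.sum_congr rfl
  intro i _
  rw [map_mul, aeval_C, map_pow, aeval_X]

lemma int_exists (hI : S_INT) (hG : IsGen g f θ) (hf : SqF g f) (x : 𝓞 L) :
    ∃ P : (𝓞 F)[X], aeval θ (fF P) = (x : L) := by
  obtain ⟨c, hc⟩ := (hI g F L f θ hG hf (x : L)).mp x.2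
  refine ⟨∑ i, C (c i) * X ^ (i : ℕ), ?_⟩
  rw [hc]
  simp only [fF, Polynomial.map_sum, map_sum, Polynomial.map_mul, Polynomial.map_C,
    Polynomial.map_pow, Polynomial.map_X, map_mul, aeval_C, map_pow, aeval_X]

/-- A common denominator which is `1` modulo 2. -/
lemma denom (t : L) (ht : ∀ 𝔓 : HeightOneSpectrum (𝓞 L), (2 : 𝓞 L) ∈ 𝔓.asIdeal →
    𝔓.valuation L t ≤ 1) :
    ∃ b c : 𝓞 L, (1 + 2 * (b : L)) * t = c := by
  obtain ⟨I, hI⟩ : ∃ I : Ideal (𝓞 L), ∀ a, a ∈ I ↔ ∃ c : 𝓞 L, (a : L) * t = c := by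
    refine ⟨
      { carrier := {a | ∃ c : 𝓞 L, (a : L) * t = c}
        add_mem' := ?_
        zero_mem' := ?_
        smul_mem' := ?_ }, fun a => Iff.rfl⟩
    · rintro a b ⟨c, hc⟩ ⟨d, hd⟩
      refine ⟨c + d, ?_⟩
      push_cast
      rw [add_mul, hc, hd]
    · refine ⟨0, ?_⟩
      push_cast
      rw [zero_mul]
    · rintro r a ⟨c, hc⟩
      refine ⟨r * c, ?_⟩
      rw [smul_eq_mul]
      push_cast
      rw [mul_assoc, hc]
  have h1 : I ⊔ Ideal.span {(2 : 𝓞 L)} = ⊤ := by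
    by_contra h
    obtain ⟨M, hM, hle⟩ := Ideal.exists_le_maximal _ h
    have h2 : (2 : 𝓞 L) ∈ M := hle (Ideal.mem_sup_right (Ideal.mem_span_singleton_self _))
    have h3 : M ≠ ⊥ := by
      rintro rfl
      rw [Ideal.mem_bot] at h2
      exact two_ne_zero h2
    obtain ⟨n, d, hd⟩ := HeightOneSpectrum.exists_primeCompl_mul_eq_of_integer
      ⟨M, hM.isPrime, h3⟩ t (ht ⟨M, hM.isPrime, h3⟩ h2)
    have h4 : (d : 𝓞 L) ∈ I := by
      rw [hI]
      refine ⟨n, ?_⟩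
      rw [mul_comm]
      exact hd
    exact d.2 (hle (Ideal.mem_sup_left h4))
  have h2 : (1 : 𝓞 L) ∈ I ⊔ Ideal.span {(2 : 𝓞 L)} := by rw [h1]; trivial
  rw [Submodule.mem_sup] at h2
  obtain ⟨a, ha, z, hz, haz⟩ := h2
  rw [Ideal.mem_span_singleton] at hz
  obtain ⟨b, hb⟩ := hz
  obtain ⟨c, hc⟩ := (hI a).mp ha
  refine ⟨-b, c, ?_⟩
  rw [← hc]
  have h5 : a = 1 + 2 * (-b) := by
    rw [hb] at haz
    linear_combination haz
  have h7 : (a : L) = 1 + 2 * ((-b : 𝓞 L) : L) := by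
    have := congrArg (algebraMap (𝓞 L) L) h5
    rw [map_add, map_mul, map_one, map_ofNat] at this
    exact this
  rw [h7]

lemma two_unit (b : 𝓞 L) : (1 + 2 * (b : L)) ≠ 0 := by
  intro h
  have h1 : algebraMap ℚ L (-2)⁻¹ = (b : L) := by
    rw [map_inv₀, map_neg, map_ofNat]
    field_simp
    linear_combination (-1 : L) * h
  have h2 : IsIntegral ℤ (algebraMap ℚ L (-2)⁻¹) := by
    rw [h1]; exact b.2
  rw [isIntegral_algebraMap_iff (algebraMap ℚ L).injective] at h2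
  obtain ⟨m, hm⟩ := IsIntegrallyClosed.isIntegral_iff.mp h2
  have h3 : (m : ℚ) * (-2) = 1 := by
    have : (m : ℚ) = (-2)⁻¹ := hm
    rw [this]; norm_num
  have h4 : m * (-2) = 1 := by exact_mod_cast h3
  omega

end alg

theorem t_SQ2 (hI : S_INT) : S_SQ2 := by
  intro g F L _ _ _ _ _ f θ hg hG hf w h2w h hh hN
  obtain ⟨s, hs0, hs⟩ := hN
  obtain ⟨t, ht⟩ : ∃ t : L, t = (aeval θ h / s ^ 2 - 1) / 8 := ⟨_, rfl⟩
  have h8 : (8 : L) ≠ 0 := by norm_num
  obtain ⟨b, c, hbc⟩ := denom t (fun 𝔓 h𝔓 => by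
    rw [ht, map_div₀]
    exact div_le_one_of_le₀ (hs 𝔓 h𝔓) zero_le')
  obtain ⟨B, hB⟩ := int_exists hI hG hf b
  obtain ⟨Cc, hCc⟩ := int_exists hI hG hf c
  obtain ⟨S, hS⟩ := gen_exists hG s
  have ha0 : (1 + 2 * (b : L)) ≠ 0 := two_unit b
  obtain ⟨A', hA'⟩ := gen_exists hG (1 + 2 * (b : L))⁻¹
  have e1 : fF f ∣ (1 + 2 * fF B) * A' - 1 := by
    apply gen_dvd hG
    rw [map_sub, map_mul, map_add, map_mul, map_one, hB, hA', map_ofNat, mul_inv_cancel₀ ha0,
      sub_self]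
  have e2 : fF f ∣ (1 + 2 * fF B) ^ 2 * h - S ^ 2 * ((1 + 2 * fF B) ^ 2 +
      8 * ((1 + 2 * fF B) * fF Cc)) := by
    apply gen_dvd hG
    simp only [map_sub, map_mul, map_add, map_one, map_pow, hB, hS, hCc, map_ofNat]
    have h1 : aeval θ h = s ^ 2 * (1 + 8 * t) := by
      rw [ht]
      field_simp
      ring
    rw [h1]
    linear_combination (8 * s ^ 2 * (1 + 2 * (b : L))) * hbc
  -- the completion
  obtain ⟨ϖ, hlim, hsep, hϖ⟩ := comp_O (F := F) w
  have h2O : ϖ ∣ 2 := by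
    have := hϖ 2 h2w
    rwa [map_ofNat] at this
  obtain ⟨z, hz⟩ := newton ϖ hlim hsep h2O (f.map (algebraMap (𝓞 F) (w.adicCompletionIntegers F)))
    (B.map (algebraMap (𝓞 F) (w.adicCompletionIntegers F)))
    (Cc.map (algebraMap (𝓞 F) (w.adicCompletionIntegers F))) (hG.mon.map _)
  obtain ⟨Z, hZ⟩ : ∃ Z, Z = z.map (algebraMap (w.adicCompletionIntegers F) (w.adicCompletion F)) :=
    ⟨_, rfl⟩
  have hmap : ∀ P : (𝓞 F)[X], (P.map (algebraMap (𝓞 F) (w.adicCompletionIntegers F))).map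
      (algebraMap (w.adicCompletionIntegers F) (w.adicCompletion F)) =
      (fF P).map (algebraMap F (w.adicCompletion F)) := by
    intro P
    rw [fF, Polynomial.map_map, Polynomial.map_map]
    rfl
  have e3 : (fF f).map (algebraMap F (w.adicCompletion F)) ∣
      Z ^ 2 + (1 + 2 * (fF B).map (algebraMap F (w.adicCompletion F))) * Z -
        2 * ((1 + 2 * (fF B).map (algebraMap F (w.adicCompletion F))) *
          (fF Cc).map (algebraMap F (w.adicCompletion F))) := by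
    have h1 := Polynomial.map_dvd
      (algebraMap (w.adicCompletionIntegers F) (w.adicCompletion F)) hz
    simp only [Polynomial.map_sub, Polynomial.map_add, Polynomial.map_mul, Polynomial.map_pow,
      Polynomial.map_one, Polynomial.map_ofNat, hmap] at h1
    rw [hZ]
    exact h1
  have e1' := Polynomial.map_dvd (algebraMap F (w.adicCompletion F)) e1
  have e2' := Polynomial.map_dvd (algebraMap F (w.adicCompletion F)) e2
  simp only [Polynomial.map_sub, Polynomial.map_add, Polynomial.map_mul, Polynomial.map_pow,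
      Polynomial.map_one, Polynomial.map_ofNat] at e1' e2'
  obtain ⟨u, hu⟩ : ∃ u, u = (fF B).map (algebraMap F (w.adicCompletion F)) := ⟨_, rfl⟩
  obtain ⟨x, hx⟩ : ∃ x, x = (fF Cc).map (algebraMap F (w.adicCompletion F)) := ⟨_, rfl⟩
  obtain ⟨y, hy⟩ : ∃ y, y = S.map (algebraMap F (w.adicCompletion F)) := ⟨_, rfl⟩
  obtain ⟨v, hv⟩ : ∃ v, v = A'.map (algebraMap F (w.adicCompletion F)) := ⟨_, rfl⟩
  obtain ⟨q, hq⟩ : ∃ q, q = h.map (algebraMap F (w.adicCompletion F)) := ⟨_, rfl⟩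
  rw [← hu, ← hx] at e3
  rw [← hu, ← hv] at e1'
  rw [← hu, ← hx, ← hy, ← hq] at e2'
  rw [← hq]
  refine ⟨y * v * ((1 + 2 * u) + 2 * Z), ?_⟩
  have e : q - (y * v * ((1 + 2 * u) + 2 * Z)) ^ 2 =
      -(q * (1 + (1 + 2 * u) * v)) * ((1 + 2 * u) * v - 1) +
        v ^ 2 * ((1 + 2 * u) ^ 2 * q - y ^ 2 * ((1 + 2 * u) ^ 2 + 8 * ((1 + 2 * u) * x))) -
          4 * v ^ 2 * y ^ 2 * (Z ^ 2 + (1 + 2 * u) * Z - 2 * ((1 + 2 * u) * x)) := by ring
  rw [e]
  exact dvd_sub (dvd_add (e1'.mul_left _) (e2'.mul_left _)) (e3.mul_left _)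

end Pool.Agent.L0h63.SP
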